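import Mathlib

/-!
# Dilates of dense sets modulo a prime can all have long gaps

Let `c, c' > 0` with `2 c + c' < log 2`.  For every large prime `p` there is a set `A₀` of residues
modulo `p` with `|A₀| ≥ (1 - exp (- c' log p / log log p)) p` such that all dilates of `A₀` (hence
all dilates of all its subsets, some of which have exactly `⌊p / 2⌋` elements) have a gap of length
`> exp (c log p / log log p)`.

The complement of `A₀` contains an arithmetic progression of length `k` with every common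
difference `d`, `0 ≤ d < p`, namely the reductions modulo `p` of the integers `(d ^ 2 mod m) + j d`,
`0 ≤ j < k`, where `m` is the product of the odd primes up to `n`: for every `j` these integers lie
in few residue classes modulo `m` since `4 (d ^ 2 + j d) + j ^ 2` is a square.
-/

set_option autoImplicit false

open Finset Filter

namespace Pool.Agent.Results.MP_1bd11d_co.LongGaps

/-- The set of squares modulo `q`. -/
def sqs (q : ℕ) [NeZero q] : Finset (ZMod q) := univ.image fun x => x * x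

lemma card_sqs_le (q : ℕ) [NeZero q] : (sqs q).card ≤ q / 2 + 1 := by
  have hsub : sqs q ⊆ (range (q / 2 + 1)).image (fun i : ℕ => (i : ZMod q) * i) := by
    intro y hy
    obtain ⟨x, -, rfl⟩ := mem_image.1 hy
    refine mem_image.2 ⟨x.valMinAbs.natAbs, mem_range.2 ?_, ?_⟩
    · have := ZMod.natAbs_valMinAbs_le x
      omega
    · have h := ZMod.coe_valMinAbs x
      have h2 : ((x.valMinAbs.natAbs : ℕ) : ZMod q) * ((x.valMinAbs.natAbs : ℕ) : ZMod q) =
          (((x.valMinAbs.natAbs : ℤ) * (x.valMinAbs.natAbs : ℤ) : ℤ) : ZMod q) := by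
        rw [Int.cast_mul, Int.cast_natCast]
      rw [h2, Int.natAbs_mul_self', Int.cast_mul, h]
  calc (sqs q).card ≤ _ := card_le_card hsub
    _ ≤ (range (q / 2 + 1)).card := card_image_le
    _ = q / 2 + 1 := card_range _

lemma card_sqs_prod_le {ι : Type*} [Fintype ι] [DecidableEq ι] (a : ι → ℕ)
    [∀ i, NeZero (a i)] (m : ℕ) [NeZero m] (hm : m = ∏ i, a i)
    (hc : Pairwise (Function.onFun Nat.Coprime a)) :
    (sqs m).card ≤ ∏ i, (a i / 2 + 1) := by
  subst hm
  set e := ZMod.prodEquivPi a hc with he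
  have hsub : (sqs (∏ i, a i)).image (fun y => e y) ⊆
      Fintype.piFinset (fun i => sqs (a i)) := by
    intro z hz
    obtain ⟨y, hy, rfl⟩ := mem_image.1 hz
    obtain ⟨x, -, rfl⟩ := mem_image.1 hy
    rw [Fintype.mem_piFinset]
    intro i
    refine mem_image.2 ⟨e x i, mem_univ _, ?_⟩
    simp only [map_mul, Pi.mul_apply]
  calc (sqs (∏ i, a i)).card = ((sqs (∏ i, a i)).image (fun y => e y)).card :=
        (card_image_of_injective _ e.injective).symm
    _ ≤ _ := card_le_card hsub
    _ = ∏ i, (sqs (a i)).card := Fintype.card_piFinset _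
    _ ≤ _ := prod_le_prod' fun i _ => card_sqs_le (a i)

/-- The values of `d ^ 2 + j d` modulo `m`. -/
def vals (m : ℕ) [NeZero m] (j : ℕ) : Finset (ZMod m) := univ.image fun d => d * d + j * d

lemma card_vals_le (m : ℕ) [NeZero m] (hm : Odd m) (j : ℕ) : (vals m j).card ≤ (sqs m).card := by
  have h4 : IsUnit ((4 : ℕ) : ZMod m) := by
    rw [ZMod.isUnit_iff_coprime]
    have : Nat.Coprime 2 m := Nat.coprime_two_left.2 hm
    exact (Nat.Coprime.pow_left 2 this)
  refine card_le_card_of_injOn (fun y => 4 * y + j * j) ?_ ?_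
  · intro y hy
    obtain ⟨d, -, rfl⟩ := mem_image.1 (mem_coe.1 hy)
    refine mem_coe.2 (mem_image.2 ⟨2 * d + j, mem_univ _, ?_⟩)
    ring
  · intro y _ z _ h
    simp only [add_left_inj] at h
    have h4' : IsUnit (4 : ZMod m) := by exact_mod_cast h4
    exact h4'.mul_left_cancel h

lemma card_residues_le (m N : ℕ) [NeZero m] (T : Finset (ZMod m)) :
    ((range N).filter (fun y : ℕ => (y : ZMod m) ∈ T)).card ≤ T.card * (N / m + 1) := by
  rw [card_eq_sum_card_fiberwise (f := fun y : ℕ => (y : ZMod m)) (t := T)]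
  · rw [← smul_eq_mul]
    apply sum_le_card_nsmul
    intro v _
    have h1 : (((range N).filter (fun y : ℕ => (y : ZMod m) ∈ T)).filter
        (fun y : ℕ => (y : ZMod m) = v)).card ≤
        ((range N).filter (fun y : ℕ => y ≡ v.val [MOD m])).card := by
      apply card_le_card
      intro y hy
      simp only [mem_filter] at hy ⊢
      refine ⟨hy.1.1, ?_⟩
      rw [← ZMod.natCast_eq_natCast_iff, hy.2, ZMod.natCast_zmod_val]
    refine h1.trans ?_
    rw [← Nat.count_eq_card_filter_range, Nat.count_modEq_card _ (Nat.pos_of_neZero m)]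
    split_ifs <;> omega
  · intro y hy
    exact (mem_filter.1 (mem_coe.1 hy)).2

/-- The finite statement: a small set of residues modulo `p` that contains an arithmetic
progression of length `k` with every common difference. -/
lemma exists_small (p m k : ℕ) [NeZero p] [NeZero m] (hm : Odd m) :
    ∃ B : Finset (ZMod p), B.card ≤ k * ((sqs m).card * ((m + k * p) / m + 1)) ∧
      ∀ d : ZMod p, ∃ c : ZMod p, ∀ j < k, c + j * d ∈ B := by
  classical
  refine ⟨(range k).biUnion fun j => ((range (m + k * p)).filter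
    (fun y : ℕ => (y : ZMod m) ∈ vals m j)).image (fun y : ℕ => (y : ZMod p)), ?_, ?_⟩
  · refine card_biUnion_le.trans ?_
    have : ∀ j ∈ range k, (((range (m + k * p)).filter
        (fun y : ℕ => (y : ZMod m) ∈ vals m j)).image (fun y : ℕ => (y : ZMod p))).card ≤
        (sqs m).card * ((m + k * p) / m + 1) := by
      intro j _
      refine card_image_le.trans ((card_residues_le m _ _).trans ?_)
      exact Nat.mul_le_mul_right _ (card_vals_le m hm j)
    refine (sum_le_card_nsmul _ _ _ this).trans ?_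
    rw [card_range, smul_eq_mul]
  · intro d
    set c₀ : ℕ := ((d.val : ZMod m) * (d.val : ZMod m)).val with hc₀
    refine ⟨(c₀ : ZMod p), fun j hj => ?_⟩
    refine mem_biUnion.2 ⟨j, mem_range.2 hj, mem_image.2 ⟨c₀ + j * d.val, ?_, ?_⟩⟩
    · refine mem_filter.2 ⟨mem_range.2 ?_, ?_⟩
      · have h1 : c₀ < m := ZMod.val_lt _
        have h2 : j * d.val ≤ k * p := Nat.mul_le_mul hj.le (ZMod.val_lt d).le
        omega
      · refine mem_image.2 ⟨(d.val : ZMod m), mem_univ _, ?_⟩
        push_cast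
        rw [hc₀, ZMod.natCast_zmod_val]
    · push_cast
      rw [ZMod.natCast_zmod_val]

/-- Odd primes up to `n`. -/
def oddPrimes (n : ℕ) : Finset ℕ := (range (n + 1)).filter fun q => q.Prime ∧ q ≠ 2

lemma prod_oddPrimes_le (n : ℕ) : ∏ q ∈ oddPrimes n, q ≤ primorial n := by
  unfold primorial oddPrimes
  refine prod_le_prod_of_subset_of_one_le' ?_ ?_
  · intro q hq
    simp only [mem_filter] at hq ⊢
    exact ⟨hq.1, hq.2.1⟩
  · intro q hq _
    exact (mem_filter.1 hq).2.one_lt.le

lemma card_oddPrimes (n : ℕ) : Nat.primeCounting n ≤ (oddPrimes n).card + 1 := by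
  have h : (range (n + 1)).filter Nat.Prime ⊆ insert 2 (oddPrimes n) := by
    intro q hq
    rw [mem_filter] at hq
    by_cases h2 : q = 2
    · exact mem_insert.2 (Or.inl h2)
    · exact mem_insert.2 (Or.inr (mem_filter.2 ⟨hq.1, hq.2, h2⟩))
  have h1 : Nat.primeCounting n = ((range (n + 1)).filter Nat.Prime).card := by
    unfold Nat.primeCounting Nat.primeCounting'
    rw [Nat.count_eq_card_filter_range]
  rw [h1]
  exact (card_le_card h).trans (card_insert_le _ _)

lemma prod_one_add_le (n : ℕ) (S : Finset ℕ) (hS : ∀ q ∈ S, 1 ≤ q ∧ q ≤ n) :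
    ∏ q ∈ S, (1 + 1 / (q : ℝ)) ≤ n + 1 := by
  have h1 : ∏ q ∈ S, (1 + 1 / (q : ℝ)) ≤ ∏ q ∈ Icc 1 n, (1 + 1 / (q : ℝ)) := by
    apply prod_le_prod_of_subset_of_one_le
    · intro q hq
      exact mem_Icc.2 (hS q hq)
    · intro q _
      positivity
    · intro q _ _
      have : (0 : ℝ) ≤ 1 / (q : ℝ) := by positivity
      linarith
  refine h1.trans (le_of_eq ?_)
  clear h1 hS
  induction n with
  | zero => simp
  | succ n ih =>
    rw [← Finset.insert_Icc_right_eq_Icc_add_one (by omega), prod_insert (by simp), ih]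
    push_cast
    have : (n : ℝ) + 1 ≠ 0 := by positivity
    field_simp

lemma sqs_bound (n : ℕ) [NeZero (∏ q ∈ oddPrimes n, q)] :
    ((sqs (∏ q ∈ oddPrimes n, q)).card : ℝ) ≤
      (1 / 2 : ℝ) ^ (oddPrimes n).card * (n + 1) * ((∏ q ∈ oddPrimes n, q : ℕ) : ℝ) := by
  set S := oddPrimes n with hS
  have hSp : ∀ q ∈ S, q.Prime ∧ q ≠ 2 := fun q hq => (mem_filter.1 hq).2
  have hSn : ∀ q ∈ S, 1 ≤ q ∧ q ≤ n := by
    intro q hq
    have h1 := mem_range.1 (mem_filter.1 hq).1
    exact ⟨(hSp q hq).1.one_lt.le, by omega⟩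
  have hprod : ∏ q ∈ S, q = ∏ i : S, (i : ℕ) := (prod_coe_sort S (fun q => q)).symm
  have : ∀ i : S, NeZero (i : ℕ) := fun i => ⟨(hSp i i.2).1.ne_zero⟩
  have hcop : Pairwise (Function.onFun Nat.Coprime (fun i : S => (i : ℕ))) := by
    intro i j hij
    exact (Nat.coprime_primes (hSp i i.2).1 (hSp j j.2).1).2 (fun h => hij (Subtype.ext h))
  have h1 := card_sqs_prod_le (fun i : S => (i : ℕ)) (∏ q ∈ S, q) hprod hcop
  have h3 : (∏ i : S, ((i : ℕ) / 2 + 1)) = ∏ q ∈ S, (q / 2 + 1) :=
    prod_coe_sort S (fun q => q / 2 + 1)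
  have h4 : (sqs (∏ q ∈ S, q)).card ≤ ∏ q ∈ S, (q / 2 + 1) := by
    rw [← h3]
    exact h1
  calc ((sqs (∏ q ∈ S, q)).card : ℝ) ≤ ((∏ q ∈ S, (q / 2 + 1) : ℕ) : ℝ) := by exact_mod_cast h4
    _ = ∏ q ∈ S, (((q / 2 + 1 : ℕ)) : ℝ) := by push_cast; rfl
    _ = ∏ q ∈ S, ((1 / 2 : ℝ) * ((1 + 1 / (q : ℝ)) * q)) := by
        refine prod_congr rfl fun q hq => ?_
        obtain ⟨hq1, hq2⟩ := hSp q hq
        have hodd : q % 2 = 1 := Nat.odd_iff.1 (hq1.odd_of_ne_two hq2)
        have h5 : 2 * (q / 2 + 1) = q + 1 := by omega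
        have h6 : (2 : ℝ) * ((q / 2 + 1 : ℕ) : ℝ) = q + 1 := by exact_mod_cast h5
        have hq0 : (q : ℝ) ≠ 0 := by exact_mod_cast hq1.ne_zero
        have h7 : (1 + 1 / (q : ℝ)) * q = q + 1 := by field_simp
        rw [h7]
        linarith
    _ = (1 / 2 : ℝ) ^ S.card * ((∏ q ∈ S, (1 + 1 / (q : ℝ))) * ((∏ q ∈ S, q : ℕ) : ℝ)) := by
        rw [prod_mul_distrib, prod_const, prod_mul_distrib]
        push_cast
        rfl
    _ ≤ (1 / 2 : ℝ) ^ S.card * ((n + 1) * ((∏ q ∈ S, q : ℕ) : ℝ)) := by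
        gcongr
        exact prod_one_add_le n S hSn
    _ = _ := by ring

lemma main_bound (p n k : ℕ) [NeZero p] (hn : primorial n ≤ p) :
    ∃ B : Finset (ZMod p),
      (B.card : ℝ) ≤ k * (k + 2) * ((1 / 2 : ℝ) ^ (oddPrimes n).card * (n + 1)) * p ∧
      ∀ d : ZMod p, ∃ c : ZMod p, ∀ j < k, c + j * d ∈ B := by
  set m := ∏ q ∈ oddPrimes n, q with hmdef
  have hm0 : m ≠ 0 := prod_ne_zero_iff.2 fun q hq => (mem_filter.1 hq).2.1.ne_zero
  have : NeZero m := ⟨hm0⟩
  have hmp : m ≤ p := (prod_oddPrimes_le n).trans hn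
  have hodd : Odd m := by
    rw [hmdef]
    apply Finset.prod_induction _ Odd (fun _ _ => Odd.mul) odd_one
    intro q hq
    exact (mem_filter.1 hq).2.1.odd_of_ne_two (mem_filter.1 hq).2.2
  obtain ⟨B, hB, hprog⟩ := exists_small p m k hodd
  refine ⟨B, ?_, hprog⟩
  have hmpos : (0 : ℝ) < m := by exact_mod_cast Nat.pos_of_ne_zero hm0
  have h1 : (B.card : ℝ) ≤ k * ((sqs m).card * ((((m + k * p) / m : ℕ) : ℝ) + 1)) := by
    exact_mod_cast hB
  have h2 : (((m + k * p) / m : ℕ) : ℝ) ≤ ((m : ℝ) + k * p) / m := by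
    have := @Nat.cast_div_le ℝ _ _ _ (m + k * p) m
    push_cast at this
    exact this
  set F : ℝ := (1 / 2 : ℝ) ^ (oddPrimes n).card * (n + 1) with hF
  have h3 : ((sqs m).card : ℝ) ≤ F * (m : ℝ) := sqs_bound n
  have hmp' : (m : ℝ) ≤ p := by exact_mod_cast hmp
  have hpow : (0 : ℝ) ≤ F := by positivity
  calc (B.card : ℝ) ≤ k * ((sqs m).card * ((((m + k * p) / m : ℕ) : ℝ) + 1)) := h1
    _ ≤ k * ((F * (m : ℝ)) * (((m : ℝ) + k * p) / m + 1)) := by
        gcongr
    _ = k * (F * ((m : ℝ) + k * p + m)) := by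
        field_simp
    _ ≤ k * (F * ((p : ℝ) + k * p + p)) := by
        gcongr
    _ = _ := by ring

lemma primorial_succ_le (n : ℕ) : primorial (n + 1) ≤ (n + 1) * primorial n := by
  unfold primorial
  rw [range_add_one (n := n + 1), filter_insert]
  split_ifs with h
  · rw [prod_insert (by simp)]
  · exact Nat.le_mul_of_pos_left _ (Nat.succ_pos n)

lemma exists_primorial (p : ℕ) (hp : 1 ≤ p) : ∃ n, primorial n ≤ p ∧ p < primorial (n + 1) := by
  classical
  have hex : ∃ n, p < primorial n := by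
    obtain ⟨q, hq, hqp⟩ := Nat.exists_infinite_primes (p + 1)
    refine ⟨q, lt_of_lt_of_le (Nat.lt_of_succ_le hq) ?_⟩
    apply Nat.le_of_dvd (primorial_pos q)
    unfold primorial
    exact dvd_prod_of_mem (fun i => i) (mem_filter.2 ⟨mem_range.2 (Nat.lt_succ_self q), hqp⟩)
  have h1 := Nat.find_spec hex
  have h0 : Nat.find hex ≠ 0 := by
    intro h
    rw [h, primorial_zero] at h1
    omega
  refine ⟨Nat.find hex - 1, ?_, ?_⟩
  · have := Nat.find_min hex (m := Nat.find hex - 1) (by omega)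
    omega
  · rwa [Nat.sub_add_cancel (by omega)]

/-- For `n` large, `n / 2 ≤ θ n`. -/
lemma half_le_theta : ∀ᶠ n : ℕ in atTop, (n : ℝ) / 2 ≤ Chebyshev.theta n := by
  have h1 : ∀ᶠ x : ℝ in atTop, Real.log x ≤ (1 / 50) * x := by
    have h := Real.isLittleO_log_id_atTop.def (show (0 : ℝ) < 1 / 50 by norm_num)
    filter_upwards [h, eventually_ge_atTop 1] with X hX h1
    rwa [Real.norm_of_nonneg (Real.log_nonneg h1), id, Real.norm_of_nonneg (by linarith)] at hX
  have h2 : ∀ᶠ x : ℝ in atTop, Real.log x ≤ (1 / 50) * x ^ (1 / 2 : ℝ) := by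
    have h := (isLittleO_log_rpow_atTop (show (0 : ℝ) < 1 / 2 by norm_num)).def
      (show (0 : ℝ) < 1 / 50 by norm_num)
    filter_upwards [h, eventually_ge_atTop 1] with X hX h1
    rwa [Real.norm_of_nonneg (Real.log_nonneg h1),
      Real.norm_of_nonneg (by positivity)] at hX
  have hc : Tendsto (fun n : ℕ => (n : ℝ)) atTop atTop := tendsto_natCast_atTop_atTop
  have hc' : Tendsto (fun n : ℕ => (n : ℝ) + 1) atTop atTop := tendsto_atTop_add_const_right _ _ hc
  filter_upwards [hc.eventually h2, hc'.eventually h1, eventually_ge_atTop 10] with n hn1 hn2 hn3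
  have h3 := Chebyshev.theta_ge n
  have h4 : (2 : ℝ) * √n * Real.log n ≤ (1 / 25) * n := by
    rw [← Real.sqrt_eq_rpow] at hn1
    have h5 : (√(n : ℝ)) * √(n : ℝ) = n := Real.mul_self_sqrt (Nat.cast_nonneg n)
    have h6 : √(n : ℝ) * Real.log n ≤ √(n : ℝ) * (1 / 50 * √(n : ℝ)) :=
      mul_le_mul_of_nonneg_left hn1 (Real.sqrt_nonneg _)
    nlinarith
  have h5 : (0.6931471803 : ℝ) < Real.log 2 := Real.log_two_gt_d9
  have h6 : (10 : ℝ) ≤ n := by exact_mod_cast hn3
  have h7 : (0.69 : ℝ) * n ≤ n * Real.log 2 := by nlinarith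
  linarith

/-- There are about `log p / log log p` primes whose product is at most `p`. -/
lemma exists_primes (ε : ℝ) (hε : 0 < ε) : ∀ᶠ p : ℕ in atTop, ∃ n : ℕ, primorial n ≤ p ∧
    (n : ℝ) + 1 ≤ 3 * Real.log p ∧
    (1 - ε) * (Real.log p / Real.log (Real.log p)) ≤ (oddPrimes n).card := by
  have hlog : Tendsto (fun p : ℕ => Real.log p) atTop atTop :=
    Real.tendsto_log_atTop.comp tendsto_natCast_atTop_atTop
  have hlog2 : Tendsto (fun p : ℕ => Real.log (Real.log p)) atTop atTop :=
    Real.tendsto_log_atTop.comp hlog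
  obtain ⟨n₀, hn₀⟩ := eventually_atTop.1 half_le_theta
  have hsmall : ∀ᶠ X : ℝ in atTop, Real.log X ≤ (ε / 8) * X := by
    have h := Real.isLittleO_log_id_atTop.def (show (0 : ℝ) < ε / 8 by positivity)
    filter_upwards [h, eventually_ge_atTop 1] with X hX h1
    rwa [Real.norm_of_nonneg (Real.log_nonneg h1), id, Real.norm_of_nonneg (by linarith)] at hX
  filter_upwards [hlog.eventually_ge_atTop 1, hlog.eventually_ge_atTop n₀,
    hlog.eventually_ge_atTop (8 * Real.log 3 / ε), hlog2.eventually_ge_atTop 1,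
    hlog2.eventually_ge_atTop (2 * Real.log 3 / ε), hlog.eventually hsmall,
    eventually_ge_atTop 1] with p hX1 hXn hX8 hY1 hY2 hsm hp1
  obtain ⟨n, hn1, hn2⟩ := exists_primorial p hp1
  set X := Real.log p with hXdef
  set Y := Real.log X with hYdef
  have hX0 : 0 < X := by linarith
  have hY0 : 0 < Y := by linarith
  have hl3 : 0 < Real.log 3 := Real.log_pos (by norm_num)
  have hth : Chebyshev.theta n = Real.log (primorial n) := by
    rw [Chebyshev.theta_eq_log_primorial, Nat.floor_natCast]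
  have hprpos : (0 : ℝ) < primorial n := by exact_mod_cast primorial_pos n
  have hthX : Chebyshev.theta n ≤ X := by
    rw [hth]
    exact Real.log_le_log hprpos (by exact_mod_cast hn1)
  have hnX : (n : ℝ) ≤ 2 * X := by
    rcases le_or_gt n₀ n with h | h
    · have := hn₀ n h
      linarith
    · have : (n : ℝ) ≤ n₀ := by exact_mod_cast h.le
      linarith
  have hn3 : (n : ℝ) + 1 ≤ 3 * X := by linarith
  have hlog3X : Real.log (3 * X) = Real.log 3 + Y := Real.log_mul (by norm_num) hX0.ne'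
  refine ⟨n, hn1, hn3, ?_⟩
  set s := (oddPrimes n).card with hs
  have hppos : (0 : ℝ) < p := by exact_mod_cast hp1
  have h1 : X ≤ Real.log (n + 1) + Chebyshev.theta n := by
    rw [hth, ← Real.log_mul (by positivity) hprpos.ne']
    apply Real.log_le_log hppos
    have h2 : p ≤ (n + 1) * primorial n := hn2.le.trans (primorial_succ_le n)
    exact_mod_cast h2
  have h2 : Real.log (n + 1) ≤ Real.log 3 + Y := by
    rw [← hlog3X]
    exact Real.log_le_log (by positivity) hn3
  have h3 : Real.log n ≤ Real.log 3 + Y := by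
    rcases Nat.eq_zero_or_pos n with h | h
    · rw [h]
      simp only [Nat.cast_zero, Real.log_zero]
      linarith
    · rw [← hlog3X]
      exact Real.log_le_log (by exact_mod_cast h) (by linarith)
  have h4 : Chebyshev.theta n ≤ (s + 1) * (Real.log 3 + Y) := by
    have hpis : ((Nat.primeCounting n : ℕ) : ℝ) ≤ s + 1 := by exact_mod_cast card_oddPrimes n
    calc Chebyshev.theta n ≤ (Nat.primeCounting n : ℝ) * Real.log n :=
          Chebyshev.theta_le_pi_mul_log n
      _ ≤ (Nat.primeCounting n : ℝ) * (Real.log 3 + Y) :=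
          mul_le_mul_of_nonneg_left h3 (Nat.cast_nonneg _)
      _ ≤ _ := mul_le_mul_of_nonneg_right hpis (by linarith)
  have h5 : X ≤ (s + 2) * (Real.log 3 + Y) := by
    calc X ≤ (Real.log 3 + Y) + (s + 1) * (Real.log 3 + Y) := by linarith
      _ = _ := by ring
  by_contra hcon
  push Not at hcon
  have h6 : (s + 2 : ℝ) * (Real.log 3 + Y) < ((1 - ε) * (X / Y) + 2) * (Real.log 3 + Y) :=
    mul_lt_mul_of_pos_right (by linarith) (by linarith)
  have h7 : ((1 - ε) * (X / Y) + 2) * (Real.log 3 + Y) =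
      (1 - ε) * X + Real.log 3 * (X / Y) - ε * (Real.log 3 * (X / Y)) + 2 * Real.log 3 + 2 * Y := by
    field_simp
    ring
  have h8 : Real.log 3 * (X / Y) ≤ (ε / 2) * X := by
    have h9 : Real.log 3 ≤ (ε / 2) * Y := by
      rw [div_le_iff₀ hε] at hY2
      linarith
    calc Real.log 3 * (X / Y) ≤ ((ε / 2) * Y) * (X / Y) :=
          mul_le_mul_of_nonneg_right h9 (by positivity)
      _ = (ε / 2) * X := by field_simp
  have h9 : 0 ≤ ε * (Real.log 3 * (X / Y)) := by positivity
  have h10 : 2 * Real.log 3 ≤ (ε / 4) * X := by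
    rw [div_le_iff₀ hε] at hX8
    linarith
  linarith

/-- Numerical estimate. -/
lemma numeric (c c' : ℝ) (hc : 0 < c) (hc' : 0 < c') (h : 2 * c + c' < Real.log 2) :
    ∀ᶠ p : ℕ in atTop, ∃ n : ℕ, primorial n ≤ p ∧ ∀ k : ℕ,
      (k : ℝ) ≤ Real.exp (c * (Real.log p / Real.log (Real.log p))) + 1 →
      (k : ℝ) * (k + 2) * ((1 / 2 : ℝ) ^ (oddPrimes n).card * (n + 1)) ≤
        Real.exp (-(c' * (Real.log p / Real.log (Real.log p)))) := by
  have hl2 : 0 < Real.log 2 := Real.log_pos (by norm_num)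
  set δ := Real.log 2 - 2 * c - c' with hδ
  have hδ0 : 0 < δ := by linarith
  have hlog : Tendsto (fun p : ℕ => Real.log p) atTop atTop :=
    Real.tendsto_log_atTop.comp tendsto_natCast_atTop_atTop
  have hlog2 : Tendsto (fun p : ℕ => Real.log (Real.log p)) atTop atTop :=
    Real.tendsto_log_atTop.comp hlog
  have hsq : ∀ᶠ X : ℝ in atTop, Real.log X ^ 2 ≤ (δ / 8) * X := by
    have h := (Real.isLittleO_pow_log_id_atTop (n := 2)).def (show (0 : ℝ) < δ / 8 by positivity)
    filter_upwards [h, eventually_ge_atTop 1] with X hX h1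
    rwa [Real.norm_of_nonneg (by positivity), id, Real.norm_of_nonneg (by linarith)] at hX
  filter_upwards [exists_primes (δ / (2 * Real.log 2)) (by positivity),
    hlog.eventually_ge_atTop 1, hlog2.eventually_ge_atTop 1,
    hlog2.eventually_ge_atTop (Real.log 24), hlog.eventually hsq] with p hn hX1 hY1 hY24 hsm
  obtain ⟨n, hn1, hn2, hn3⟩ := hn
  refine ⟨n, hn1, fun k hk => ?_⟩
  set X := Real.log p with hXdef
  set Y := Real.log X with hYdef
  set W := X / Y with hW
  set s := (oddPrimes n).card with hs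
  have hX0 : 0 < X := by linarith
  have hY0 : 0 < Y := by linarith
  have hW0 : 0 ≤ W := by positivity
  have hexp1 : 1 ≤ Real.exp (c * W) := Real.one_le_exp (by positivity)
  have hk1 : (k : ℝ) ≤ 2 * Real.exp (c * W) := by linarith
  have hk2 : (k : ℝ) + 2 ≤ 4 * Real.exp (c * W) := by linarith
  have hpow : (1 / 2 : ℝ) ^ s = Real.exp (-(s * Real.log 2)) := by
    rw [Real.exp_neg, Real.exp_nat_mul, Real.exp_log (by norm_num), one_div, inv_pow]
  have hn4 : (n : ℝ) + 1 ≤ Real.exp (Real.log 3 + Y) := by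
    rw [Real.exp_add, Real.exp_log (by norm_num), Real.exp_log hX0]
    exact hn2
  have h8 : (8 : ℝ) = Real.exp (Real.log 8) := (Real.exp_log (by norm_num)).symm
  have h24 : Real.log 8 + Real.log 3 = Real.log 24 := by
    rw [← Real.log_mul (by norm_num) (by norm_num)]
    norm_num
  have hs2 : (Real.log 2 - δ / 2) * W ≤ s * Real.log 2 := by
    have h1 : (1 - δ / (2 * Real.log 2)) * W * Real.log 2 ≤ s * Real.log 2 :=
      mul_le_mul_of_nonneg_right hn3 hl2.le
    calc (Real.log 2 - δ / 2) * W = (1 - δ / (2 * Real.log 2)) * W * Real.log 2 := by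
          field_simp
      _ ≤ _ := h1
  have hWY : Real.log 24 + Y ≤ (δ / 2) * W := by
    have h1 : 2 * Y ≤ (δ / 2) * W := by
      rw [hW, ← mul_div_assoc, le_div_iff₀ hY0]
      nlinarith
    linarith
  calc (k : ℝ) * (k + 2) * ((1 / 2 : ℝ) ^ s * (n + 1))
      ≤ (2 * Real.exp (c * W)) * (4 * Real.exp (c * W)) *
        (Real.exp (-(s * Real.log 2)) * Real.exp (Real.log 3 + Y)) := by
        rw [hpow]
        gcongr
    _ = 8 * (Real.exp (c * W) * Real.exp (c * W) *
        (Real.exp (-(s * Real.log 2)) * Real.exp (Real.log 3 + Y))) := by ring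
    _ = Real.exp (Real.log 8 + (c * W + c * W + (-(s * Real.log 2) + (Real.log 3 + Y)))) := by
        rw [← Real.exp_add, ← Real.exp_add, ← Real.exp_add]
        conv_lhs => rw [h8]
        rw [← Real.exp_add]
    _ ≤ Real.exp (-(c' * W)) := by
        apply Real.exp_le_exp.2
        have : (Real.log 2 - δ / 2) * W = (δ / 2) * W + 2 * (c * W) + c' * W := by
          rw [hδ]
          ring
        linarith

/-- `B` has a gap of length `L`: there are `L` consecutive residues modulo `p` outside `B`. -/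
def HasGap {p : ℕ} (B : Finset (ZMod p)) (L : ℕ) : Prop :=
  ∃ x : ZMod p, ∀ i < L, x + (i : ZMod p) ∉ B

/-- The dilation `n A = {n a : a ∈ A}`. -/
def dilate {p : ℕ} (n : ZMod p) (A : Finset (ZMod p)) : Finset (ZMod p) :=
  A.image fun a => n * a

/-- **Theorem.** Let `c, c' > 0` and `2 c + c' < log 2`.  For every large prime `p` there is a set
`A₀` of residues modulo `p` with `|A₀| ≥ (1 - exp (- c' log p / log log p)) p` such that, for every
subset `A` of `A₀` and every `n`, the dilation `n A` has a gap of some length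
`L > exp (c log p / log log p)`; moreover `A₀` has a subset with exactly `⌊p / 2⌋` elements. -/
theorem result (c c' : ℝ) (hc : 0 < c) (hc' : 0 < c') (h : 2 * c + c' < Real.log 2) :
    ∀ᶠ p : ℕ in atTop, p.Prime → ∃ A₀ : Finset (ZMod p),
      (1 - Real.exp (-(c' * (Real.log p / Real.log (Real.log p))))) * p ≤ (A₀.card : ℝ) ∧
      (∀ A ⊆ A₀, ∀ n : ZMod p, ∃ L : ℕ,
        Real.exp (c * (Real.log p / Real.log (Real.log p))) < L ∧ HasGap (dilate n A) L) ∧
      ∃ A ⊆ A₀, A.card = p / 2 := by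
  have hlog : Tendsto (fun p : ℕ => Real.log p) atTop atTop :=
    Real.tendsto_log_atTop.comp tendsto_natCast_atTop_atTop
  have hlog2 : Tendsto (fun p : ℕ => Real.log (Real.log p)) atTop atTop :=
    Real.tendsto_log_atTop.comp hlog
  have hsq : ∀ᶠ X : ℝ in atTop, Real.log X ^ 2 ≤ 1 * X := by
    have h := (Real.isLittleO_pow_log_id_atTop (n := 2)).def (show (0 : ℝ) < 1 by norm_num)
    filter_upwards [h, eventually_ge_atTop 1] with X hX h1
    rwa [Real.norm_of_nonneg (by positivity), id, Real.norm_of_nonneg (by linarith)] at hX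
  filter_upwards [numeric c c' hc hc' h, hlog.eventually_ge_atTop 4, hlog2.eventually_ge_atTop 1,
    hlog2.eventually_ge_atTop (1 / c'), hlog.eventually hsq] with p hnum hX hY hYc hsm hp
  have : NeZero p := ⟨hp.ne_zero⟩
  have : Fact p.Prime := ⟨hp⟩
  obtain ⟨n₁, hn₁, hnum⟩ := hnum
  set X := Real.log p with hXdef
  set Y := Real.log X with hYdef
  set W := X / Y with hW
  have hppos : (0 : ℝ) < p := by exact_mod_cast hp.pos
  have hexpX : Real.exp X = p := Real.exp_log hppos
  have hX0 : 0 < X := by linarith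
  have hY0 : 0 < Y := by linarith
  have hW0 : 0 ≤ W := by positivity
  have hWX : W ≤ X := by
    rw [hW]
    exact div_le_self hX0.le hY
  have hYW : Y ≤ W := by
    rw [hW, le_div_iff₀ hY0]
    nlinarith
  have hc2 : c ≤ 7 / 20 := by
    have := Real.log_two_lt_d9
    linarith
  set k := ⌊Real.exp (c * W)⌋₊ + 1 with hk
  have hk1 : (k : ℝ) ≤ Real.exp (c * W) + 1 := by
    rw [hk]
    push_cast
    linarith [Nat.floor_le (Real.exp_pos (c * W)).le]
  have hk2 : Real.exp (c * W) < k := by
    rw [hk]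
    push_cast
    exact Nat.lt_floor_add_one _
  have hexp1 : 1 ≤ Real.exp (c * W) := Real.one_le_exp (by positivity)
  have hexpL2 : Real.exp (-(c' * W)) ≤ 1 / 2 := by
    have h1 : 1 ≤ c' * W := by
      rw [div_le_iff₀ hc'] at hYc
      nlinarith
    have h2 : 2 ≤ Real.exp (c' * W) := by
      have := Real.add_one_le_exp (c' * W)
      linarith
    rw [Real.exp_neg, ← one_div]
    exact one_div_le_one_div_of_le (by norm_num) h2
  have hkp : k < p := by
    have h1 : (k : ℝ) < p := by
      rw [← hexpX]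
      have h2 : (2 : ℝ) < Real.exp 1 := by
        have := Real.exp_one_gt_d9
        linarith
      have h3 : Real.exp (c * W) + 1 ≤ 2 * Real.exp (c * W) := by linarith
      have h4 : 2 * Real.exp (c * W) < Real.exp 1 * Real.exp (c * W) :=
        mul_lt_mul_of_pos_right h2 (Real.exp_pos _)
      have h5 : Real.exp 1 * Real.exp (c * W) ≤ Real.exp X := by
        rw [← Real.exp_add]
        apply Real.exp_le_exp.2
        nlinarith
      linarith
    exact_mod_cast h1
  obtain ⟨B, hB, hprog⟩ := main_bound p n₁ k hn₁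
  have hB2 : (B.card : ℝ) ≤ Real.exp (-(c' * W)) * p :=
    hB.trans (mul_le_mul_of_nonneg_right (hnum k hk1) hppos.le)
  have hcard : ((Bᶜ).card : ℝ) = p - B.card := by
    rw [card_compl, ZMod.card, Nat.cast_sub]
    have := card_le_univ B
    rwa [ZMod.card] at this
  refine ⟨Bᶜ, ?_, ?_, ?_⟩
  · rw [hcard]
    linarith
  · intro A hA n
    refine ⟨k, hk2, ?_⟩
    by_cases hn0 : n = 0
    · refine ⟨1, fun i hi h => ?_⟩
      obtain ⟨a, -, ha⟩ := mem_image.1 h
      rw [hn0, zero_mul] at ha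
      have h1 : ((1 + i : ℕ) : ZMod p) = 0 := by
        push_cast
        exact ha.symm
      rw [ZMod.natCast_eq_zero_iff] at h1
      have := Nat.le_of_dvd (by omega) h1
      omega
    · obtain ⟨b, hb⟩ := hprog n⁻¹
      refine ⟨n * b, fun i hi h => ?_⟩
      obtain ⟨a, ha, hae⟩ := mem_image.1 h
      have h1 : a = b + i * n⁻¹ := by
        have h2 : n⁻¹ * (n * a) = n⁻¹ * (n * b + i) := by rw [hae]
        rw [← mul_assoc, inv_mul_cancel₀ hn0, one_mul, mul_add, ← mul_assoc,
          inv_mul_cancel₀ hn0, one_mul] at h2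
        rw [h2]
        ring
      have h3 := mem_compl.1 (hA ha)
      rw [h1] at h3
      exact h3 (hb i hi)
  · apply exists_subset_card_eq
    have h1 : ((p / 2 : ℕ) : ℝ) ≤ ((Bᶜ).card : ℝ) := by
      have h2 : ((p / 2 : ℕ) : ℝ) ≤ (p : ℝ) / 2 := by
        have := @Nat.cast_div_le ℝ _ _ _ p 2
        push_cast at this
        exact this
      rw [hcard]
      have h3 : Real.exp (-(c' * W)) * p ≤ 1 / 2 * p :=
        mul_le_mul_of_nonneg_right hexpL2 hppos.le
      linarith
    exact_mod_cast h1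

end Pool.Agent.Results.MP_1bd11d_co.LongGaps
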