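import Pool.Agent.Lib.MP_1bd11d_co.SG.Main

/-!
# Dilations of sets modulo a prime: gaps shorter than `p / √|A|`

The second moment method (Alon and Peres, Uniform dilations) shows that every set `A` of residues
modulo a prime `p` has a dilation `n A` without gaps longer than `C p / √|A|`.  Here the order of
this bound is improved for all large sets: there is `a₀` such that for every prime `p` and every
`A ⊆ ZMod p` with `|A| ≥ a₀` some dilation `n A`, `n ≠ 0`, has no gap of length
`≥ (p / √|A|) / (log |A|) ^ (1 / 50)`.  In particular sets with `⌊p / 2⌋` elements have a dilation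
without gaps of length `√p / (log p) ^ (1 / 60)`, for large `p`.

The proof is in the folder `Pool/Agent/Lib/MP_1bd11d_co/SG` (with a description in `Paper.md`).
-/

set_option autoImplicit false

namespace Pool.Agent.Results.MP_1bd11d_co.ShortGaps

/-- `B` has a gap of length `L`: there are `L` consecutive residues (in the cyclic sense) outside
`B`. -/
def HasGap {p : ℕ} (B : Finset (ZMod p)) (L : ℕ) : Prop :=
  ∃ x : ZMod p, ∀ i : ℕ, i < L → x + (i : ZMod p) ∉ B

/-- The dilation `n A = {n x : x ∈ A}`. -/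
def dilate {p : ℕ} (n : ZMod p) (A : Finset (ZMod p)) : Finset (ZMod p) :=
  A.image (fun x => n * x)

/-- There is `a₀` such that for every prime `p` and every `A ⊆ ZMod p` with `|A| ≥ a₀` some
dilation `n A`, `n ≠ 0`, has no gap of length `≥ (p / √|A|) / (log |A|) ^ (1 / 50)`. -/
theorem result : ∃ a₀ : ℕ, ∀ p : ℕ, p.Prime → ∀ A : Finset (ZMod p), a₀ ≤ A.card →
    ∃ n : ZMod p, n ≠ 0 ∧ ∀ L : ℕ,
      (p : ℝ) / √(A.card : ℝ) / (Real.log (A.card : ℝ)) ^ (1 / 50 : ℝ) ≤ (L : ℝ) →
        ¬ HasGap (dilate n A) L := by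
  obtain ⟨a₀, h⟩ := Pool.Agent.Lib.MP_1bd11d_co.SG.main
  refine ⟨a₀, fun p hp A hA => ?_⟩
  obtain ⟨n, hn, hL⟩ := h p hp A hA
  refine ⟨n, hn, fun L hLL hgap => hL L hLL ?_⟩
  obtain ⟨x, hx⟩ := hgap
  refine ⟨x, fun i hi hmem => hx i hi ?_⟩
  unfold Pool.Agent.Lib.MP_1bd11d_co.SG.dilate at hmem
  obtain ⟨y, hy, hyx⟩ := Finset.mem_image.1 hmem
  exact Finset.mem_image.2 ⟨y, hy, hyx⟩

end Pool.Agent.Results.MP_1bd11d_co.ShortGaps
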